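import Pool.Agent.H24.Sh

set_option autoImplicit false

/-!
# The end of the proof for bounded breadth, in the language of fibre sums
-/

namespace Pool.Agent.H40.VC.FinalS

open Finset Pool.Agent.H24.Sh

variable {Ω : Type*} [Fintype Ω] {α : Type*}

/-- `∑ r (f ω) / |fibre| = ∑_{a in the image} r a`. -/
lemma sum_div_fib [DecidableEq α] (f : Ω → α) (r : α → ℝ) :
    ∑ ω, r (f ω) / fib f ω = ∑ a ∈ univ.image f, r a := by
  classical
  rw [← Finset.sum_fiberwise_of_maps_to (s := (univ : Finset Ω)) (t := univ.image f) (g := f)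
    (fun ω _ => Finset.mem_image_of_mem f (Finset.mem_univ ω))]
  refine Finset.sum_congr rfl fun a ha => ?_
  obtain ⟨ω₀, _, rfl⟩ := Finset.mem_image.1 ha
  have h1 : ∀ ω ∈ univ.filter (fun ω => f ω = f ω₀), r (f ω) / fib f ω = r (f ω₀) / fib f ω₀ := by
    intro ω hω
    rw [Finset.mem_filter] at hω
    rw [hω.2, fib_eq f hω.2]
  rw [Finset.sum_congr rfl h1, Finset.sum_const, nsmul_eq_mul, card_fib f ω₀]
  have := fib_pos f ω₀
  field_simp

/-- Gibbs: if `∑_{a in the image} r a ≤ 1`, `r > 0`, then `∑ log (|Ω| r (f ω)) ≤ S f`. -/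
lemma gibbs [DecidableEq α] (f : Ω → α) (r : α → ℝ) (hr : ∀ ω, 0 < r (f ω))
    (hsum : ∑ a ∈ univ.image f, r a ≤ 1) :
    ∑ ω, Real.log ((Fintype.card Ω : ℝ) * r (f ω)) ≤ S f := by
  classical
  by_cases hne : IsEmpty Ω
  · simp [S]
  rw [not_isEmpty_iff] at hne
  have hN : (0 : ℝ) < Fintype.card Ω := by exact_mod_cast Fintype.card_pos
  have h1 : ∀ ω, Real.log ((Fintype.card Ω : ℝ) * r (f ω)) - Real.log (fib f ω) ≤
      (Fintype.card Ω : ℝ) * (r (f ω) / fib f ω) - 1 := by
    intro ω
    have h2 := fib_pos f ω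
    have h3 := hr ω
    rw [← Real.log_div (by positivity) (by positivity)]
    have h4 := Real.log_le_sub_one_of_pos
      (show 0 < (Fintype.card Ω : ℝ) * r (f ω) / fib f ω by positivity)
    rwa [mul_div_assoc] at h4 ⊢
  have h5 := Finset.sum_le_sum (s := (univ : Finset Ω)) fun ω _ => h1 ω
  rw [Finset.sum_sub_distrib, Finset.sum_sub_distrib, ← Finset.mul_sum, sum_div_fib,
    Finset.sum_const, Finset.card_univ, nsmul_eq_mul, mul_one] at h5
  have h6 : (Fintype.card Ω : ℝ) * ∑ a ∈ univ.image f, r a ≤ Fintype.card Ω := by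
    nlinarith
  unfold S
  linarith

/-- If `f` has at most `K` values, `S f ≥ |Ω| log (|Ω| / K)`. -/
lemma S_ge [DecidableEq α] [Nonempty Ω] (f : Ω → α) (K : ℕ) (hK : (univ.image f).card ≤ K) :
    (Fintype.card Ω : ℝ) * (Real.log (Fintype.card Ω) - Real.log K) ≤ S f := by
  have hN : (0 : ℝ) < Fintype.card Ω := by exact_mod_cast Fintype.card_pos
  have hpos : 0 < (univ.image f).card := by
    rw [Finset.card_pos]
    exact Finset.univ_nonempty.image f
  have hK0 : (0 : ℝ) < K := by exact_mod_cast lt_of_lt_of_le hpos hK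
  have h := gibbs f (fun _ => 1 / (K : ℝ)) (fun _ => by positivity) (by
    rw [Finset.sum_const, nsmul_eq_mul, mul_one_div, div_le_one hK0]
    exact_mod_cast hK)
  rw [Finset.sum_const, Finset.card_univ, nsmul_eq_mul, mul_one_div,
    Real.log_div hN.ne' hK0.ne'] at h
  exact h

/-- `S f ≤ |Ω| log |Ω|`. -/
lemma S_le (f : Ω → α) : S f ≤ (Fintype.card Ω : ℝ) * Real.log (Fintype.card Ω) := by
  classical
  have h : ∀ ω ∈ (univ : Finset Ω), Real.log (fib f ω) ≤ Real.log (Fintype.card Ω) := by
    intro ω _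
    refine Real.log_le_log (fib_pos f ω) ?_
    unfold fib
    exact_mod_cast Finset.card_le_univ _
  have h2 := Finset.sum_le_sum h
  rw [Finset.sum_const, Finset.card_univ, nsmul_eq_mul] at h2
  exact h2

/-- The Kullback-Leibler step: a quarter of the pairs is mapped into a small set. -/
lemma kl {L : Type*} [Fintype L] [Nonempty L] [DecidableEq L] (f : L × L → L) (E : Finset L)
    (hE : (Fintype.card L : ℝ) ^ 2 / 4 ≤ ((univ.filter (fun p : L × L => f p ∈ E)).card : ℝ)) :
    (Fintype.card L : ℝ) ^ 2 * (Real.log (Fintype.card L) - Real.log 2 +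
      (1 / 4) * Real.log ((Fintype.card L : ℝ) / (E.card : ℝ))) ≤ S f := by
  classical
  set N : ℝ := (Fintype.card L : ℝ) with hNdef
  have hN : (0 : ℝ) < N := by rw [hNdef]; exact_mod_cast Fintype.card_pos
  have hEne : E.Nonempty := by
    rw [Finset.nonempty_iff_ne_empty]
    rintro rfl
    simp at hE
    nlinarith [pow_pos hN 2]
  have hEc : (0 : ℝ) < (E.card : ℝ) := by exact_mod_cast hEne.card_pos
  have hEN : (E.card : ℝ) ≤ N := by rw [hNdef]; exact_mod_cast Finset.card_le_univ E
  set r : L → ℝ := fun z => 1 / (2 * N) + (if z ∈ E then 1 / (2 * (E.card : ℝ)) else 0) with hr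
  have hrpos : ∀ z, 0 < r z := by
    intro z
    simp only [hr]
    have : (0 : ℝ) < 1 / (2 * N) := by positivity
    split_ifs
    · positivity
    · linarith
  have hsum : ∑ a ∈ univ.image f, r a ≤ 1 := by
    calc ∑ a ∈ univ.image f, r a ≤ ∑ a, r a :=
          Finset.sum_le_sum_of_subset_of_nonneg (Finset.subset_univ _) fun a _ _ => (hrpos a).le
      _ = 1 := by
        simp only [hr]
        rw [Finset.sum_add_distrib, Finset.sum_const, Finset.card_univ, nsmul_eq_mul, ← hNdef,
          ← Finset.sum_filter, Finset.filter_mem_eq_inter, Finset.univ_inter, Finset.sum_const,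
          nsmul_eq_mul]
        field_simp
        norm_num
  have h := gibbs f r (fun ω => hrpos _) hsum
  refine le_trans ?_ h
  have hcard : (Fintype.card (L × L) : ℝ) = N ^ 2 := by
    rw [Fintype.card_prod]
    push_cast
    rw [sq]
  have h1 : ∀ p : L × L, 2 * Real.log N - Real.log 2 - Real.log N +
      (if f p ∈ E then (Real.log N - Real.log (E.card : ℝ)) else 0) ≤
      Real.log ((Fintype.card (L × L) : ℝ) * r (f p)) := by
    intro p
    rw [hcard, Real.log_mul (by positivity) (hrpos _).ne', Real.log_pow]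
    push_cast
    have h2 : (if f p ∈ E then -Real.log 2 - Real.log (E.card : ℝ) else
        -Real.log 2 - Real.log N) ≤ Real.log (r (f p)) := by
      split_ifs with hp
      · have h3 : 1 / (2 * (E.card : ℝ)) ≤ r (f p) := by
          simp only [hr, if_pos hp]
          have : (0 : ℝ) < 1 / (2 * N) := by positivity
          linarith
        have h4 := Real.log_le_log (by positivity) h3
        rw [one_div, Real.log_inv, Real.log_mul (by norm_num) hEc.ne'] at h4
        linarith
      · have h3 : 1 / (2 * N) ≤ r (f p) := by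
          simp only [hr, if_neg hp]
          linarith
        have h4 := Real.log_le_log (by positivity) h3
        rw [one_div, Real.log_inv, Real.log_mul (by norm_num) hN.ne'] at h4
        linarith
    split_ifs at h2 ⊢ <;> linarith
  have h5 := Finset.sum_le_sum (s := (univ : Finset (L × L))) fun p _ => h1 p
  refine le_trans ?_ h5
  rw [Finset.sum_add_distrib, Finset.sum_const, Finset.card_univ, nsmul_eq_mul, hcard,
    ← Finset.sum_filter, Finset.sum_const, nsmul_eq_mul]
  have h6 : 0 ≤ Real.log N - Real.log (E.card : ℝ) := by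
    have := Real.log_le_log hEc hEN
    linarith
  have h7 := mul_le_mul_of_nonneg_right hE h6
  rw [Real.log_div hN.ne' hEc.ne']
  nlinarith

/-- The final inequality from the two steps of the entropy argument. -/
theorem final {L : Type*} [Fintype L] [Nonempty L] [DecidableEq L] {τ τ₁ : Type*}
    [DecidableEq τ] [DecidableEq τ₁] (mt : L → L → L) (cls : L → τ) (cls1 : L → τ₁)
    (e e1 : ℝ) (he : 0 ≤ e) (he1 : 0 ≤ e1) (h2 : 2 * e + 2 * e1 ≤ 1) (K K1 : ℕ)
    (hK : (univ.image cls).card ≤ K) (hK1 : (univ.image cls1).card ≤ K1)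
    (hA : S (fun p : L × L => mt p.1 p.2) + 2 * (1 / 2 - e) * (Fintype.card L : ℝ) *
      (S cls - S (id : L → L)) ≤ S (fun p : L × L => cls (mt p.1 p.2)))
    (hB : S (fun p : L × L => cls (mt p.1 p.2)) + 2 * (1 / 2 - e - e1) * (Fintype.card L : ℝ) *
      (S cls1 - S cls) ≤ S (fun p : L × L => cls1 (mt p.1 p.2)))
    (E : Finset L) (hE : (Fintype.card L : ℝ) ^ 2 / 4 ≤
      ((univ.filter (fun p : L × L => mt p.1 p.2 ∈ E)).card : ℝ)) :
    (1 / 4) * Real.log ((Fintype.card L : ℝ) / (E.card : ℝ)) ≤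
      Real.log 2 + 2 * e * Real.log (Fintype.card L) + 2 * e1 * Real.log K + Real.log K1 := by
  have hkl := kl (fun p : L × L => mt p.1 p.2) E hE
  have hid : S (id : L → L) = 0 := by
    unfold S
    refine Finset.sum_eq_zero fun x _ => ?_
    have : fib (id : L → L) x = 1 := by
      rw [← card_fib (id : L → L) x]
      have h3 : univ.filter (fun y : L => id y = id x) = {x} := by
        ext y
        simp
      rw [h3]
      simp
    rw [this, Real.log_one]
  have htop := S_le (fun p : L × L => cls1 (mt p.1 p.2))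
  have hcard : (Fintype.card (L × L) : ℝ) = (Fintype.card L : ℝ) ^ 2 := by
    rw [Fintype.card_prod]
    push_cast
    rw [sq]
  rw [hcard, Real.log_pow] at htop
  have hg := S_ge cls K hK
  have hg1 := S_ge cls1 K1 hK1
  rw [hid] at hA
  have hN : (0 : ℝ) < (Fintype.card L : ℝ) := by exact_mod_cast Fintype.card_pos
  set N : ℝ := (Fintype.card L : ℝ) with hNdef
  have hK1pos : 1 ≤ K1 := by
    refine le_trans ?_ hK1
    rw [Nat.one_le_iff_ne_zero, ← Nat.pos_iff_ne_zero, Finset.card_pos]
    exact Finset.univ_nonempty.image cls1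
  have hlK1 : 0 ≤ Real.log (K1 : ℝ) := Real.log_nonneg (by exact_mod_cast hK1pos)
  set Λ := Real.log N with hΛ
  set a := S cls
  set b := S cls1
  -- S_z ≤ N² (Λ + 2 e Λ + log K1 + 2 e1 log K)
  have h3 : (1 - 2 * e - 2 * e1) * N * (N * (Λ - Real.log K1)) ≤ (1 - 2 * e - 2 * e1) * N * b :=
    mul_le_mul_of_nonneg_left hg1 (by
      have : 0 ≤ 1 - 2 * e - 2 * e1 := by linarith
      positivity)
  have h4 : 2 * e1 * N * (N * (Λ - Real.log K)) ≤ 2 * e1 * N * a :=
    mul_le_mul_of_nonneg_left hg (by positivity)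
  have h5 : N ^ 2 * (Λ - Real.log 2 + 1 / 4 * Real.log (N / (E.card : ℝ))) ≤
      N ^ 2 * (Λ + 2 * e * Λ + 2 * e1 * Real.log K + Real.log K1) := by
    have h6 : 0 ≤ N ^ 2 * ((2 * e + 2 * e1) * Real.log K1) := by positivity
    push_cast at htop
    nlinarith
  have h7 := le_of_mul_le_mul_left h5 (by positivity)
  linarith

end Pool.Agent.H40.VC.FinalS
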