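import Pool.Agent.H40.VC.Main

set_option autoImplicit false

/-!
# An explicit bound for the theorem on lattices of bounded breadth
-/

namespace Pool.Agent.H40.VC.Explicit

open Real

/-- `log x ≤ log κ + x / κ - 1`. -/
lemma log_le_aux {x κ : ℝ} (hx : 0 < x) (hκ : 0 < κ) : Real.log x ≤ Real.log κ + x / κ - 1 := by
  have h := Real.log_le_sub_one_of_pos (show 0 < x / κ by positivity)
  rw [Real.log_div hx.ne' hκ.ne'] at h
  linarith

lemma log_three_le : Real.log 3 ≤ 1.4 := by
  have h : Real.log 3 ≤ Real.log 4 := Real.log_le_log (by norm_num) (by norm_num)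
  have h2 : Real.log 4 = 2 * Real.log 2 := by
    rw [show (4 : ℝ) = 2 ^ 2 by norm_num, Real.log_pow]
    norm_num
  have h3 := Real.log_two_lt_d9
  linarith

lemma log_two_hundred_le : Real.log 200 ≤ 5.6 := by
  have h : Real.log 200 ≤ Real.log 256 := Real.log_le_log (by norm_num) (by norm_num)
  have h2 : Real.log 256 = 8 * Real.log 2 := by
    rw [show (256 : ℝ) = 2 ^ 8 by norm_num, Real.log_pow]
    norm_num
  have h3 := Real.log_two_lt_d9
  linarith

lemma log_hundred_le : Real.log 100 ≤ 4.9 := by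
  have h : Real.log 100 ≤ Real.log 128 := Real.log_le_log (by norm_num) (by norm_num)
  have h2 : Real.log 128 = 7 * Real.log 2 := by
    rw [show (128 : ℝ) = 2 ^ 7 by norm_num, Real.log_pow]
    norm_num
  have h3 := Real.log_two_lt_d9
  linarith

lemma log_forty_eight_le : Real.log 48 ≤ 4.2 := by
  have h : Real.log 48 ≤ Real.log 64 := Real.log_le_log (by norm_num) (by norm_num)
  have h2 : Real.log 64 = 6 * Real.log 2 := by
    rw [show (64 : ℝ) = 2 ^ 6 by norm_num, Real.log_pow]
    norm_num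
  have h3 := Real.log_two_lt_d9
  linarith

/-- The inequality in `l = log Λ`, for `l ≥ 200 B log (B + 1)`. -/
lemma explicit_ineq (B : ℝ) (hB : 1 ≤ B) (l : ℝ) (hl : 200 * B * Real.log (B + 1) ≤ l) :
    1 ≤ l ∧ 32 * (B * (3 + 2 * l)) ≤ Real.exp l ∧
    Real.log 2 + 2 + 2 * (B * (3 + 2 * l)) / Real.exp l + (3 + 2 * l) / 48 +
      B * (1 + Real.log (200 * B ^ 2 * (3 + 2 * l))) <
      (1 / 4) * (l - Real.log (48 * (B * (3 + 2 * l)))) := by
  have hB0 : 0 < B := by linarith
  have hu2 : Real.log 2 ≤ Real.log (B + 1) := Real.log_le_log (by norm_num) (by linarith)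
  have hlog2 := Real.log_two_gt_d9
  have hlog2' := Real.log_two_lt_d9
  set u := Real.log (B + 1) with hu
  have hu69 : 0.69 ≤ u := by linarith
  have hu0 : 0 ≤ u := by linarith
  -- `138 B ≤ l`, `200 B u ≤ l`
  have hBl : 138 * B ≤ l := by nlinarith
  have hl138 : 138 ≤ l := by linarith
  have hBu : B * u ≤ l / 200 := by linarith
  have hul : u ≤ l / 200 := by nlinarith
  have hlogB : Real.log B ≤ u := Real.log_le_log hB0 (by linarith)
  have hlogB0 : 0 ≤ Real.log B := Real.log_nonneg hB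
  have hs0 : (0 : ℝ) < 3 + 2 * l := by linarith
  have hl0 : 0 < l := by linarith
  have hexp : 32 * (B * (3 + 2 * l)) ≤ Real.exp l := by
    have h1 := Real.quadratic_le_exp_of_nonneg (show (0 : ℝ) ≤ l / 2 by linarith)
    have h2 : Real.exp l = Real.exp (l / 2) * Real.exp (l / 2) := by
      rw [← Real.exp_add]
      congr 1
      ring
    have h3 : l ^ 2 / 8 ≤ Real.exp (l / 2) := by nlinarith
    have h4 : (l ^ 2 / 8) * (l ^ 2 / 8) ≤ Real.exp l := by
      rw [h2]
      exact mul_le_mul h3 h3 (by positivity) (Real.exp_pos _).le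
    have h5 : 32 * (B * (3 + 2 * l)) ≤ l ^ 2 := by
      have h8 : 32 * B ≤ l / 4 := by linarith
      have h9 : 3 + 2 * l ≤ 4 * l := by linarith
      have h10 := mul_le_mul h8 h9 hs0.le (by linarith)
      nlinarith
    have h6 : l ^ 2 ≤ (l ^ 2 / 8) * (l ^ 2 / 8) := by
      have h7 : (64 : ℝ) ≤ l ^ 2 := by nlinarith
      nlinarith
    linarith
  refine ⟨by linarith, hexp, ?_⟩
  have e1 : Real.log (200 * B ^ 2 * (3 + 2 * l)) =
      Real.log 200 + 2 * Real.log B + Real.log (3 + 2 * l) := by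
    rw [Real.log_mul (by positivity) hs0.ne', Real.log_mul (by norm_num) (by positivity),
      Real.log_pow]
    norm_num
  have e2 : Real.log (48 * (B * (3 + 2 * l))) =
      Real.log 48 + Real.log B + Real.log (3 + 2 * l) := by
    rw [Real.log_mul (by norm_num) (by positivity), Real.log_mul hB0.ne' hs0.ne']
    ring
  have e3 : Real.log (3 + 2 * l) ≤ Real.log 3 + Real.log l := by
    rw [← Real.log_mul (by norm_num) hl0.ne']
    exact Real.log_le_log hs0 (by linarith)
  have e4 : Real.log l ≤ Real.log 100 + Real.log B + l / (100 * B) - 1 := by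
    have h := log_le_aux hl0 (show 0 < 100 * B by positivity)
    rwa [Real.log_mul (by norm_num) hB0.ne'] at h
  have e5 : Real.log l ≤ Real.log 100 + l / 100 - 1 := log_le_aux hl0 (by norm_num)
  have e6 : 2 * (B * (3 + 2 * l)) / Real.exp l ≤ 1 / 16 := by
    rw [div_le_iff₀ (Real.exp_pos l)]
    linarith
  have h3 := log_three_le
  have h200 := log_two_hundred_le
  have h100 := log_hundred_le
  have h48 := log_forty_eight_le
  have k1 : B * Real.log B ≤ B * u := mul_le_mul_of_nonneg_left hlogB hB0.le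
  -- `B log l ≤ 3.9 B + l / 200 + l / 100`
  have e7 : B * Real.log l ≤ 3.9 * B + l / 200 + l / 100 := by
    have h := mul_le_mul_of_nonneg_left e4 hB0.le
    have k2 : B * (Real.log 100 + Real.log B + l / (100 * B) - 1) =
        B * Real.log 100 + B * Real.log B + l / 100 - B := by
      field_simp
    have k3 : B * Real.log 100 ≤ B * 4.9 := mul_le_mul_of_nonneg_left h100 hB0.le
    linarith
  have e8 : B * (1 + Real.log (200 * B ^ 2 * (3 + 2 * l))) ≤
      B + 5.6 * B + 2 * (l / 200) + (1.4 * B + (3.9 * B + l / 200 + l / 100)) := by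
    rw [e1]
    have k2 : B * Real.log 200 ≤ B * 5.6 := mul_le_mul_of_nonneg_left h200 hB0.le
    have k3 : B * Real.log (3 + 2 * l) ≤ B * (Real.log 3 + Real.log l) :=
      mul_le_mul_of_nonneg_left e3 hB0.le
    have k4 : B * Real.log 3 ≤ B * 1.4 := mul_le_mul_of_nonneg_left h3 hB0.le
    linarith
  have e9 : Real.log (48 * (B * (3 + 2 * l))) ≤ 4.2 + l / 200 + (1.4 + (4.9 + l / 100 - 1)) := by
    rw [e2]
    linarith
  linarith

/-- The two requirements from the inequality in `log Λ`. -/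
theorem numbers (b : ℕ) (Λ : ℝ) (hΛ1 : 1 ≤ Λ)
    (hΛ : 200 * ((b : ℝ) ^ 2 + 1) * Real.log ((b : ℝ) ^ 2 + 1 + 1) ≤ Real.log Λ)
    (e e1 η : ℝ) (t t1 K K1 : ℕ)
    (he : e = 1 / Λ) (ht : t = ⌈2 * Λ ^ 2⌉₊ + 1) (hK : K = ((t + 1) ^ b + 1) ^ b)
    (he1 : e1 = 1 / (96 * ((b : ℝ) ^ 2 + 1))) (ht1 : t1 = ⌈2 * Real.log K / e1⌉₊ + 1)
    (hK1 : K1 = ((t1 + 1) ^ b + 1) ^ b) (hη : η = e + Real.log K / (2 * Λ)) :
    0 < Λ ∧ 0 < η ∧ 32 * η ≤ 1 ∧
    Real.log 2 + 2 * e * Λ + (2 * e + 2 * e1) * Real.log K + Real.log K1 <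
      (1 / 4) * Real.log (1 / (48 * η)) := by
  set B : ℝ := (b : ℝ) ^ 2 + 1 with hBdef
  have hB : 1 ≤ B := by
    have := sq_nonneg (b : ℝ)
    linarith
  obtain ⟨hl1, hexp, hineq⟩ := explicit_ineq B hB (Real.log Λ) hΛ
  have hΛpos : 0 < Λ := by linarith
  rw [Real.exp_log hΛpos] at hexp hineq
  set l := Real.log Λ with hl
  have hs0 : (0 : ℝ) < 3 + 2 * l := by linarith
  -- the bound for `log K`
  have hK1' : (1 : ℝ) ≤ K := by
    rw [hK]
    exact_mod_cast Nat.one_le_pow _ _ (Nat.succ_pos _)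
  have hLK0 : 0 ≤ Real.log K := Real.log_nonneg hK1'
  have htr : (t : ℝ) + 1 ≤ 5 * Λ ^ 2 := by
    have h := Nat.ceil_lt_add_one (show (0 : ℝ) ≤ 2 * Λ ^ 2 by positivity)
    rw [ht]
    push_cast
    nlinarith
  have hlt : Real.log ((t : ℝ) + 1) ≤ 2 + 2 * l := by
    have h0 : (0 : ℝ) < (t : ℝ) + 1 := by positivity
    have h1 := Real.log_le_log h0 htr
    rw [Real.log_mul (by norm_num) (by positivity), Real.log_pow] at h1
    have h5 : Real.log 5 ≤ 2 := by
      rw [Real.log_le_iff_le_exp (by norm_num)]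
      have := Real.add_one_le_exp (1 : ℝ)
      have h2 : Real.exp 2 = Real.exp 1 * Real.exp 1 := by
        rw [← Real.exp_add]
        norm_num
      have h3 := Real.exp_one_gt_d9
      rw [h2]
      nlinarith
    push_cast at h1
    linarith
  have hLK : Real.log K ≤ B * (3 + 2 * l) := by
    have h := Numbers.log_K_le b t
    rw [← hK, ← hBdef] at h
    refine h.trans (mul_le_mul_of_nonneg_left ?_ (by linarith))
    linarith
  have he1pos : 0 < e1 := by
    rw [he1]
    positivity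
  -- the bound for `log K1`
  have ht1r : (t1 : ℝ) + 1 ≤ 200 * B ^ 2 * (3 + 2 * l) := by
    have h := Nat.ceil_lt_add_one (show (0 : ℝ) ≤ 2 * Real.log K / e1 by positivity)
    have h2 : 2 * Real.log K / e1 = 192 * B * Real.log K := by
      rw [he1]
      field_simp
      ring
    rw [h2] at h
    have h3 : (t1 : ℝ) + 1 < 192 * B * Real.log K + 3 := by
      rw [ht1, h2]
      push_cast
      linarith
    have h4 : 192 * B * Real.log K ≤ 192 * B * (B * (3 + 2 * l)) :=
      mul_le_mul_of_nonneg_left hLK (by positivity)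
    have h5 : (3 : ℝ) ≤ 8 * B ^ 2 * (3 + 2 * l) := by
      have : (1 : ℝ) ≤ B ^ 2 := one_le_pow₀ hB
      nlinarith
    nlinarith
  have hLK1 : Real.log K1 ≤ B * (1 + Real.log (200 * B ^ 2 * (3 + 2 * l))) := by
    have h := Numbers.log_K_le b t1
    rw [← hK1, ← hBdef] at h
    refine h.trans (mul_le_mul_of_nonneg_left ?_ (by linarith))
    have h0 : (0 : ℝ) < (t1 : ℝ) + 1 := by positivity
    have := Real.log_le_log h0 ht1r
    linarith
  -- the bound for `η`
  have hηpos : 0 < η := by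
    rw [hη, he]
    positivity
  have hη2 : η ≤ B * (3 + 2 * l) / Λ := by
    rw [hη, he, div_add_div _ _ hΛpos.ne' (by positivity), div_le_div_iff₀ (by positivity) hΛpos]
    have h1 : 2 ≤ B * (3 + 2 * l) := by nlinarith
    have h3 : (1 * (2 * Λ) + Λ * Real.log K) * Λ = Λ ^ 2 * (2 + Real.log K) := by ring
    have h4 : B * (3 + 2 * l) * (Λ * (2 * Λ)) = Λ ^ 2 * (B * (3 + 2 * l) + B * (3 + 2 * l)) := by
      ring
    rw [h3, h4]
    exact mul_le_mul_of_nonneg_left (by linarith) (by positivity)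
  refine ⟨hΛpos, hηpos, ?_, ?_⟩
  · calc 32 * η ≤ 32 * (B * (3 + 2 * l) / Λ) := by linarith
      _ = 32 * (B * (3 + 2 * l)) / Λ := by ring
      _ ≤ 1 := by
        rw [div_le_one hΛpos]
        exact hexp
  · have hr1 : l - Real.log (48 * (B * (3 + 2 * l))) ≤ Real.log (1 / (48 * η)) := by
      rw [hl, ← Real.log_div hΛpos.ne' (by positivity)]
      refine Real.log_le_log (by positivity) ?_
      rw [div_le_div_iff₀ (by positivity) (by positivity)]
      have h := mul_le_mul_of_nonneg_left hη2 (show (0 : ℝ) ≤ 48 * Λ by positivity)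
      have h2 : 48 * Λ * (B * (3 + 2 * l) / Λ) = 48 * (B * (3 + 2 * l)) := by
        field_simp
      rw [h2] at h
      linarith
    have hr2 : 2 * e * Λ = 2 := by
      rw [he]
      field_simp
    have hr3 : 2 * e * Real.log K ≤ 2 * (B * (3 + 2 * l)) / Λ := by
      rw [he]
      have h : 2 * (1 / Λ) * Real.log K = 2 * Real.log K / Λ := by ring
      rw [h]
      gcongr
    have hr4 : 2 * e1 * Real.log K ≤ (3 + 2 * l) / 48 := by
      have h : 2 * e1 * Real.log K ≤ 2 * e1 * (B * (3 + 2 * l)) :=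
        mul_le_mul_of_nonneg_left hLK (by positivity)
      have h2 : 2 * e1 * (B * (3 + 2 * l)) = (3 + 2 * l) / 48 := by
        rw [he1]
        field_simp
        ring
      linarith
    have hr5 : (2 * e + 2 * e1) * Real.log K = 2 * e * Real.log K + 2 * e1 * Real.log K := by ring
    rw [hr2, hr5]
    linarith

/-- Frankl's inequality, strictly, for finite lattices of breadth at most `b` with
`log log |L| ≥ 200 (b ^ 2 + 1) log (b ^ 2 + 2)`. -/
theorem main {L : Type*} [Lattice L] [BoundedOrder L] [Fintype L] (b : ℕ)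
    (hb : ∀ A : Finset L, (∀ a ∈ A, Maximal SupIrred a) →
      ∃ B ⊆ A, B.card ≤ b ∧ B.sup id = A.sup id)
    (hN : 200 * ((b : ℝ) ^ 2 + 1) * Real.log ((b : ℝ) ^ 2 + 2) ≤
      Real.log (Real.log (Fintype.card L))) :
    ∃ a : L, Maximal SupIrred a ∧ 2 * (Nat.card {x : L // a ≤ x}) < Fintype.card L := by
  classical
  have hB : (1 : ℝ) ≤ (b : ℝ) ^ 2 + 1 := by
    have := sq_nonneg (b : ℝ)
    linarith
  have h2 : Real.log 2 ≤ Real.log ((b : ℝ) ^ 2 + 2) :=
    Real.log_le_log (by norm_num) (by linarith)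
  have hlog2 := Real.log_two_gt_d9
  have hpos : 1 < Real.log (Real.log (Fintype.card L)) := by nlinarith
  have hΛ0 : 0 ≤ Real.log (Fintype.card L) := Real.log_natCast_nonneg _
  have hΛ1 : 1 < Real.log (Fintype.card L) := by
    by_contra h
    push Not at h
    have := Real.log_nonpos hΛ0 h
    linarith
  have hcard : 2 ≤ Fintype.card L := by
    by_contra h
    push Not at h
    have h' : (Fintype.card L : ℝ) ≤ 1 := by
      have : Fintype.card L ≤ 1 := by omega
      exact_mod_cast this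
    have := Real.log_nonpos (Nat.cast_nonneg _) h'
    linarith
  obtain ⟨-, -, h32, hineq⟩ := numbers b (Real.log (Fintype.card L)) hΛ1.le
    (by
      have : (b : ℝ) ^ 2 + 1 + 1 = (b : ℝ) ^ 2 + 2 := by ring
      rw [this]
      exact hN) _ _ _ _ _ _ _ rfl rfl rfl rfl rfl rfl rfl
  obtain ⟨a, ha, hlt⟩ := Main.core b hb hcard _ _ _ _ _ _ _ rfl rfl rfl rfl rfl rfl rfl h32 hineq
  refine ⟨a, ha, ?_⟩
  rw [Nat.card_eq_fintype_card, Fintype.card_subtype]
  exact hlt

end Pool.Agent.H40.VC.Explicit
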