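import Pool.Agent.H40.VC.Numbers
import Pool.Agent.H40.VC.FinalS
import Pool.Agent.H24.Ts
import Pool.Agent.H31.LB.ESet
import Pool.Agent.H51.TwoLev.Main

set_option autoImplicit false

/-!
# Frankl's inequality for all large finite lattices of bounded breadth
-/

namespace Pool.Agent.H40.VC.Main

open Finset Pool.Agent.H24.Sh

variable {L : Type*} [Lattice L] [Fintype L]

/-- In a finite lattice `z ≤ w` holds as soon as every join-irreducible below `z` is below `w`. -/
lemma le_of_forall_supIrred {z w : L}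
    (h : ∀ c : L, SupIrred c → c ≤ z → c ≤ w) : z ≤ w := by
  by_contra hzw
  obtain ⟨c, hc⟩ := (Set.toFinite {c : L | c ≤ z ∧ ¬ c ≤ w}).exists_minimal ⟨z, le_rfl, hzw⟩
  have hbelow : ∀ e : L, e < c → e ≤ w := by
    intro e he
    by_contra hew
    exact absurd (hc.le_of_le ⟨he.le.trans hc.prop.1, hew⟩ he.le) (not_le_of_gt he)
  refine hc.prop.2 (h c ⟨fun hmin => hc.prop.2 ((hmin inf_le_left).trans inf_le_right), ?_⟩
    hc.prop.1)
  intro b e hbe
  by_contra hne
  have hb : b < c := lt_of_le_of_ne (hbe ▸ le_sup_left) (fun h' => hne (Or.inl h'))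
  have he : e < c := lt_of_le_of_ne (hbe ▸ le_sup_right) (fun h' => hne (Or.inr h'))
  exact hc.prop.2 (hbe ▸ sup_le (hbelow b hb) (hbelow e he))

/-- An element is determined by its meets with the maximal join-irreducibles. -/
lemma le_of_inf_eq {x y : L} (h : ∀ m : L, Maximal SupIrred m → x ⊓ m = y ⊓ m) : x ≤ y := by
  refine le_of_forall_supIrred fun c hc hcx => ?_
  obtain ⟨m, hcm, hm⟩ := (Set.toFinite {x : L | SupIrred x}).exists_le_maximal hc
  have h1 : c ≤ x ⊓ m := le_inf hcx hcm
  rw [h m hm] at h1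
  exact h1.trans inf_le_left

/-- The choice of the decidability instance does not matter. -/
lemma card_image_inst {α β : Type*} (i i' : DecidableEq β) (f : α → β) (s : Finset α) (n : ℕ)
    (h : (@Finset.image α β i f s).card ≤ n) : (@Finset.image α β i' f s).card ≤ n := by
  rw [Subsingleton.elim i' i]
  exact h

open Classical in
/-- The entropy argument. -/
theorem core [BoundedOrder L] (b : ℕ) (hb : ∀ A : Finset L, (∀ a ∈ A, Maximal SupIrred a) →
      ∃ B ⊆ A, B.card ≤ b ∧ B.sup id = A.sup id)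
    (hN : 2 ≤ Fintype.card L)
    (e e1 η : ℝ) (t t1 K K1 : ℕ) (he : e = 1 / Real.log (Fintype.card L))
    (ht : t = ⌈2 * Real.log (Fintype.card L) ^ 2⌉₊ + 1) (hK : K = ((t + 1) ^ b + 1) ^ b)
    (he1 : e1 = 1 / (96 * ((b : ℝ) ^ 2 + 1))) (ht1 : t1 = ⌈2 * Real.log K / e1⌉₊ + 1)
    (hK1 : K1 = ((t1 + 1) ^ b + 1) ^ b) (hη : η = e + Real.log K / (2 * Real.log (Fintype.card L)))
    (h32 : 32 * η ≤ 1)
    (hineq : Real.log 2 + 2 * e * Real.log (Fintype.card L) + (2 * e + 2 * e1) * Real.log K +
      Real.log K1 < (1 / 4) * Real.log (1 / (48 * η))) :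
    ∃ a : L, Maximal SupIrred a ∧ 2 * (univ.filter fun x => a ≤ x).card < Fintype.card L := by
  by_contra hcon
  push Not at hcon
  have hNR : (2 : ℝ) ≤ Fintype.card L := by exact_mod_cast hN
  set N : ℝ := (Fintype.card L : ℝ) with hNdef
  have hNpos : 0 < N := by linarith
  set Λ := Real.log N with hΛdef
  have hΛ : 0 < Λ := Real.log_pos (by linarith)
  have hepos : 0 < e := by rw [he]; positivity
  have he1pos : 0 < e1 := by rw [he1]; positivity
  have hKpos : 1 ≤ K := by rw [hK]; exact Nat.one_le_pow _ _ (Nat.succ_pos _)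
  have hlK : 0 ≤ Real.log (K : ℝ) := Real.log_nonneg (by exact_mod_cast hKpos)
  have hηpos : 0 < η := by rw [hη]; positivity
  have heη : e ≤ η := by
    rw [hη]
    have : 0 ≤ Real.log (K : ℝ) / (2 * Λ) := by positivity
    linarith
  have he32 : e ≤ 1 / 32 := by linarith
  have he196 : e1 ≤ 1 / 96 := by
    rw [he1]
    apply one_div_le_one_div_of_le (by norm_num)
    have := sq_nonneg (b : ℝ)
    linarith
  set Mx : Finset L := univ.filter (fun a : L => Maximal SupIrred a) with hMx
  have hmem : ∀ m : L, m ∈ Mx ↔ Maximal SupIrred m := fun m => by simp [hMx]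
  obtain ⟨g, g1, hg, hgg, hu, hu1, hcard, hcard1, hfac⟩ :=
    Pool.Agent.H51.TwoLev.two_levels b Mx
      (fun A hA => hb A fun a ha => (hmem a).1 (hA ha)) e e1 t t1
      (by
        rw [← hNdef, ← hΛdef, he, ht]
        have h1 := Nat.le_ceil (2 * Λ ^ 2)
        push_cast
        have h2 : 1 / Λ * ((⌈2 * Λ ^ 2⌉₊ : ℝ) + 1) ≥ 1 / Λ * (2 * Λ ^ 2 + 1) :=
          mul_le_mul_of_nonneg_left (by linarith) (by positivity)
        have h3 : 1 / Λ * (2 * Λ ^ 2 + 1) = 2 * Λ + 1 / Λ := by
          field_simp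
        have h4 : 0 < 1 / Λ := by positivity
        linarith)
      (by
        rw [← hK, ht1]
        have h1 := Nat.le_ceil (2 * Real.log K / e1)
        push_cast
        have h2 : e1 * ((⌈2 * Real.log K / e1⌉₊ : ℝ) + 1) ≥ e1 * (2 * Real.log K / e1 + 1) :=
          mul_le_mul_of_nonneg_left (by linarith) he1pos.le
        have h3 : e1 * (2 * Real.log K / e1 + 1) = 2 * Real.log K + e1 := by
          field_simp
        linarith)
  rw [← hK] at hcard
  rw [← hK1] at hcard1
  -- the index set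
  let j : Fin Mx.card → L := fun m => (Mx.equivFin.symm m : L)
  have hj : ∀ m, j m ∈ Mx := fun m => (Mx.equivFin.symm m).2
  have hjs : ∀ a ∈ Mx, ∃ m, j m = a := fun a ha => ⟨Mx.equivFin ⟨a, ha⟩, by simp [j]⟩
  have hinj : ∀ x y : L, (∀ m, x ⊓ j m = y ⊓ j m) → x = y := by
    intro x y h
    have h1 : ∀ m : L, Maximal SupIrred m → x ⊓ m = y ⊓ m := by
      intro m hm
      obtain ⟨i, rfl⟩ := hjs m ((hmem m).2 hm)
      exact h i
    exact le_antisymm (le_of_inf_eq h1) (le_of_inf_eq fun m hm => (h1 m hm).symm)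
  set cls : L → Finset L := fun x => Mx.filter (fun m => g m ≤ x) with hcls
  set cls1 : L → Finset L := fun x => Mx.filter (fun m => g1 m ≤ x) with hcls1
  have hmc : ∀ x m, j m ∈ cls x ↔ g (j m) ≤ x := by
    intro x m
    simp [hcls, hj m]
  have hmc1 : ∀ x m, j m ∈ cls1 x ↔ g1 (j m) ≤ x := by
    intro x m
    simp [hcls1, hj m]
  have hclsiff : ∀ x y, cls x = cls y ↔ ∀ m, (g (j m) ≤ x ↔ g (j m) ≤ y) := by
    intro x y
    constructor
    · intro h m
      rw [← hmc x m, ← hmc y m, h]
    · intro h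
      ext a
      simp only [hcls, Finset.mem_filter]
      refine and_congr_right fun ha => ?_
      obtain ⟨m, rfl⟩ := hjs a ha
      exact h m
  have hcls1iff : ∀ x y, cls1 x = cls1 y ↔ ∀ m, (g1 (j m) ≤ x ↔ g1 (j m) ≤ y) := by
    intro x y
    constructor
    · intro h m
      rw [← hmc1 x m, ← hmc1 y m, h]
    · intro h
      ext a
      simp only [hcls1, Finset.mem_filter]
      refine and_congr_right fun ha => ?_
      obtain ⟨m, rfl⟩ := hjs a ha
      exact h m
  have hfac' : ∀ x y, cls x = cls y → cls1 x = cls1 y := by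
    intro x y h
    rw [hcls1iff]
    intro m
    refine hfac x y (fun a ha => ?_) (j m) (hj m)
    obtain ⟨i, rfl⟩ := hjs a ha
    exact (hclsiff x y).1 h i
  have hgen : ∀ m, N / 2 ≤ ((univ.filter fun x => j m ≤ x).card : ℝ) := by
    intro m
    have h := hcon (j m) ((hmem _).1 (hj m))
    have h' : N ≤ 2 * ((univ.filter fun x => j m ≤ x).card : ℝ) := by
      rw [hNdef]
      exact_mod_cast h
    linarith
  have hu' : ∀ m, (1 / 2 - e) * N ≤ ((univ.filter fun y => g (j m) ≤ y).card : ℝ) := by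
    intro m
    have h1 := hu (j m) (hj m)
    have h2 := hgen m
    rw [← hNdef] at h1
    linarith
  have hu1' : ∀ m, (1 / 2 - e - e1) * N ≤ ((univ.filter fun y => g1 (j m) ≤ y).card : ℝ) := by
    intro m
    have h1 := hu1 (j m) (hj m)
    have h2 := hu' m
    rw [← hNdef] at h1
    linarith
  -- the exceptional set
  obtain ⟨E, hE1, hE2⟩ := Pool.Agent.H31.LB.eset j (fun m => g (j m)) (fun m => hg _ (hj m)) hinj
    cls (fun x y h m => (hclsiff x y).1 h m) (K : ℝ)
    (Nat.cast_le.2 (card_image_inst _ _ _ _ _ hcard)) e hepos.le hN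
    (fun m => by
      have := hu' m
      rw [hNdef] at this
      exact this)
    (by rw [← hη]; exact h32)
  rw [← hη] at hE1
  -- the two steps
  have hA := two_step (Ω := L) (I := Fin Mx.card) (fun x y => x ⊓ y) (id : L → L) cls
    (fun m x => x ⊓ j m) (fun τ => univ.filter (fun m => j m ∈ τ)) (1 / 2 - e) (by linarith)
    (fun z z' h => by rw [show z = z' from h])
    (fun z z' _ h => hinj z z' h)
    (fun x x' y y' hx hy => by
      rw [hclsiff] at hx hy ⊢
      intro m
      simp only [le_inf_iff]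
      rw [hx m, hy m])
    (fun x x' y y' hx hy h m hm => by
      have h' : x ⊓ y = x' ⊓ y' := h
      rw [Finset.mem_filter, hmc] at hm
      have hjy : j m ≤ y := (hg _ (hj m)).trans hm.2
      have hjy' : j m ≤ y' := (hg _ (hj m)).trans (((hclsiff y y').1 hy m).1 hm.2)
      calc x ⊓ j m = (x ⊓ y) ⊓ j m := by rw [inf_assoc, inf_eq_right.2 hjy]
        _ = (x' ⊓ y') ⊓ j m := by rw [h']
        _ = x' ⊓ j m := by rw [inf_assoc, inf_eq_right.2 hjy'])
    (fun x x' y y' hx hy h m hm => by
      have h' : x ⊓ y = x' ⊓ y' := h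
      rw [Finset.mem_filter, hmc] at hm
      have hjx : j m ≤ x := (hg _ (hj m)).trans hm.2
      have hjx' : j m ≤ x' := (hg _ (hj m)).trans (((hclsiff x x').1 hx m).1 hm.2)
      calc y ⊓ j m = (x ⊓ y) ⊓ j m := by
            rw [inf_comm x y, inf_assoc, inf_eq_right.2 hjx]
        _ = (x' ⊓ y') ⊓ j m := by rw [h']
        _ = y' ⊓ j m := by rw [inf_comm x' y', inf_assoc, inf_eq_right.2 hjx'])
    (fun m => by
      have h := hu' m
      rw [hNdef] at h
      refine h.trans (le_of_eq ?_)
      congr 2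
      ext y
      simp [hmc])
  have hB := two_step (Ω := L) (I := Fin Mx.card) (fun x y => x ⊓ y) cls cls1
    (fun m x => decide (g (j m) ≤ x)) (fun τ => univ.filter (fun m => j m ∈ τ)) (1 / 2 - e - e1)
    (by linarith)
    hfac'
    (fun z z' _ h => by
      rw [hclsiff]
      intro m
      have := h m
      simpa using this)
    (fun x x' y y' hx hy => by
      rw [hcls1iff] at hx hy ⊢
      intro m
      simp only [le_inf_iff]
      rw [hx m, hy m])
    (fun x x' y y' hx hy h m hm => by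
      rw [hclsiff] at h
      have h' := h m
      simp only [le_inf_iff] at h'
      rw [Finset.mem_filter, hmc1] at hm
      have hjy : g (j m) ≤ y := (hgg _ (hj m)).trans hm.2
      have hjy' : g (j m) ≤ y' := (hgg _ (hj m)).trans (((hcls1iff y y').1 hy m).1 hm.2)
      simp only [hjy, hjy', and_true] at h'
      simp [h'])
    (fun x x' y y' hx hy h m hm => by
      rw [hclsiff] at h
      have h' := h m
      simp only [le_inf_iff] at h'
      rw [Finset.mem_filter, hmc1] at hm
      have hjx : g (j m) ≤ x := (hgg _ (hj m)).trans hm.2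
      have hjx' : g (j m) ≤ x' := (hgg _ (hj m)).trans (((hcls1iff x x').1 hx m).1 hm.2)
      simp only [hjx, hjx', true_and] at h'
      simp [h'])
    (fun m => by
      have h := hu1' m
      rw [hNdef] at h
      refine h.trans (le_of_eq ?_)
      congr 2
      ext y
      simp [hmc1])
  have hne : Nonempty L := ⟨⊥⟩
  have hfin := Pool.Agent.H40.VC.FinalS.final (L := L) (fun x y => x ⊓ y) cls cls1 e e1 hepos.le
    he1pos.le (by linarith) K K1 (card_image_inst _ _ _ _ _ hcard)
    (card_image_inst _ _ _ _ _ hcard1)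
    hA hB E (by
      refine hE2.trans (le_of_eq ?_)
      congr)
  -- `#E ≤ 16 η N`
  have hEpos : (0 : ℝ) < (E.card : ℝ) := by
    rw [Nat.cast_pos, Finset.card_pos, Finset.nonempty_iff_ne_empty]
    rintro rfl
    simp at hE2
    have : (0 : ℝ) < (Fintype.card L : ℝ) ^ 2 := by positivity
    nlinarith
  have hlast : Real.log (1 / (48 * η)) ≤ Real.log (N / (E.card : ℝ)) := by
    refine Real.log_le_log (by positivity) ?_
    rw [div_le_div_iff₀ (by positivity) hEpos]
    have : (E.card : ℝ) ≤ 16 * η * N := hE1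
    nlinarith [mul_pos hηpos hNpos]
  rw [← hNdef, ← hΛdef] at hfin
  have h5 : 0 ≤ 2 * e * Real.log (K : ℝ) := by positivity
  nlinarith

/-- Every large finite lattice in which every join of maximal join-irreducibles is the join of at
most `b` of them satisfies Frankl's inequality strictly. -/
theorem main.{u} (b : ℕ) : ∃ C : ℕ, ∀ (L : Type u) [Lattice L] [BoundedOrder L] [Fintype L],
    (∀ A : Finset L, (∀ a ∈ A, Maximal SupIrred a) →
      ∃ B ⊆ A, B.card ≤ b ∧ B.sup id = A.sup id) →
    C < Fintype.card L →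
    ∃ a : L, Maximal SupIrred a ∧ 2 * (Nat.card {x : L // a ≤ x}) < Fintype.card L := by
  classical
  obtain ⟨Λ₀, hΛ₀⟩ := Numbers.numbers b
  refine ⟨⌈Real.exp Λ₀⌉₊ + 2, ?_⟩
  intro L _ _ _ hb hC
  have h1 : Real.exp Λ₀ ≤ (Fintype.card L : ℝ) := by
    have h2 : ⌈Real.exp Λ₀⌉₊ ≤ Fintype.card L := by omega
    exact (Nat.le_ceil _).trans (by exact_mod_cast h2)
  have h2 : Λ₀ ≤ Real.log (Fintype.card L) := by
    rw [Real.le_log_iff_exp_le]
    · exact h1
    · exact lt_of_lt_of_le (Real.exp_pos _) h1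
  obtain ⟨-, -, h32, hineq⟩ := hΛ₀ _ h2 _ _ _ _ _ _ _ rfl rfl rfl rfl rfl rfl rfl
  obtain ⟨a, ha, hlt⟩ := core b hb (by omega) _ _ _ _ _ _ _ rfl rfl rfl rfl rfl rfl rfl h32 hineq
  refine ⟨a, ha, ?_⟩
  rw [Nat.card_eq_fintype_card, Fintype.card_subtype]
  exact hlt

end Pool.Agent.H40.VC.Main
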