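import Mathlib

set_option autoImplicit false

/-!
# The arithmetic at the end of the theorem on lattices of bounded breadth
-/

namespace Pool.Agent.H40.VC.Numbers

open Filter Real

/-- `log (((t + 1) ^ b + 1) ^ b) ≤ B (1 + log (t + 1))` with `B = b ^ 2 + 1`. -/
lemma log_K_le (b t : ℕ) :
    Real.log ((((t + 1) ^ b + 1) ^ b : ℕ) : ℝ) ≤
      ((b : ℝ) ^ 2 + 1) * (1 + Real.log ((t : ℝ) + 1)) := by
  have ht : (1 : ℝ) ≤ (t : ℝ) + 1 := by
    have : (0 : ℝ) ≤ t := Nat.cast_nonneg t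
    linarith
  have h0 : 0 ≤ Real.log ((t : ℝ) + 1) := Real.log_nonneg ht
  have hb : (0 : ℝ) ≤ b := Nat.cast_nonneg b
  have h1 : (1 : ℝ) ≤ ((t : ℝ) + 1) ^ b := one_le_pow₀ ht
  have h2 : Real.log (((t : ℝ) + 1) ^ b + 1) ≤ 1 + b * Real.log ((t : ℝ) + 1) := by
    have h3 : Real.log (((t : ℝ) + 1) ^ b + 1) ≤ Real.log (2 * ((t : ℝ) + 1) ^ b) :=
      Real.log_le_log (by positivity) (by linarith)
    rw [Real.log_mul (by norm_num) (by positivity), Real.log_pow] at h3
    have h4 : Real.log 2 ≤ 1 := by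
      have := Real.log_two_lt_d9
      linarith
    linarith
  have h5 : Real.log ((((t + 1) ^ b + 1) ^ b : ℕ) : ℝ) =
      b * Real.log (((t : ℝ) + 1) ^ b + 1) := by
    push_cast
    rw [Real.log_pow]
  rw [h5]
  have h6 : (b : ℝ) ≤ (b : ℝ) ^ 2 + 1 := by nlinarith [sq_nonneg ((b : ℝ) - 1)]
  calc (b : ℝ) * Real.log (((t : ℝ) + 1) ^ b + 1) ≤ b * (1 + b * Real.log ((t : ℝ) + 1)) :=
        mul_le_mul_of_nonneg_left h2 hb
    _ = b + b ^ 2 * Real.log ((t : ℝ) + 1) := by ring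
    _ ≤ ((b : ℝ) ^ 2 + 1) * (1 + Real.log ((t : ℝ) + 1)) := by nlinarith

/-- The asymptotic inequality in `l = log Λ`. -/
lemma eventually_ineq (B : ℝ) (hB : 1 ≤ B) : ∀ᶠ l : ℝ in atTop,
    1 ≤ l ∧ 32 * (B * (3 + 2 * l)) ≤ Real.exp l ∧
    Real.log 2 + 2 + 2 * (B * (3 + 2 * l)) / Real.exp l + (3 + 2 * l) / 48 +
      B * (1 + Real.log (200 * B ^ 2 * (3 + 2 * l))) <
      (1 / 4) * (l - Real.log (48 * (B * (3 + 2 * l)))) := by
  have hs : Tendsto (fun l : ℝ => 3 + 2 * l) atTop atTop :=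
    tendsto_atTop_add_const_left _ _ (tendsto_id.const_mul_atTop (by norm_num))
  -- `log s ≤ s / (c)` eventually
  have hlog : ∀ᶠ l : ℝ in atTop, Real.log (3 + 2 * l) ≤ (1 / (100 * (B + 1))) * (3 + 2 * l) := by
    have h1 := (Real.isLittleO_log_id_atTop.comp_tendsto hs).bound
      (show (0 : ℝ) < 1 / (100 * (B + 1)) by positivity)
    filter_upwards [h1, eventually_ge_atTop (1 : ℝ)] with l hl hl1
    simp only [Function.comp_apply, id, Real.norm_eq_abs] at hl
    have h3 : (0 : ℝ) ≤ 3 + 2 * l := by linarith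
    rw [abs_of_nonneg h3] at hl
    exact (le_abs_self _).trans hl
  have hexp : ∀ᶠ l : ℝ in atTop, 32 * (B * (3 + 2 * l)) ≤ Real.exp l := by
    have h1 : (fun l : ℝ => 32 * (B * (3 + 2 * l))) =o[atTop] Real.exp := by
      have h2 : (fun l : ℝ => l) =o[atTop] Real.exp := by
        simpa using isLittleO_pow_exp_atTop (n := 1)
      have h3 : (fun _ : ℝ => (1 : ℝ)) =o[atTop] Real.exp := by
        simpa using isLittleO_pow_exp_atTop (n := 0)
      have h4 := (h3.const_mul_left (32 * B * 3)).add (h2.const_mul_left (32 * B * 2))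
      refine h4.congr_left (fun l => ?_)
      ring
    have h5 := h1.bound (show (0 : ℝ) < 1 by norm_num)
    filter_upwards [h5] with l hl
    rw [Real.norm_eq_abs, Real.norm_eq_abs, abs_of_pos (Real.exp_pos l), one_mul] at hl
    exact (le_abs_self _).trans hl
  have hbig : ∀ᶠ l : ℝ in atTop,
      (100 * (B + 1) * (10 + |Real.log (200 * B ^ 2)| + |Real.log (48 * B)|)) ≤ l :=
    eventually_ge_atTop _
  filter_upwards [hlog, hexp, hbig, eventually_ge_atTop (1 : ℝ)] with l h1 h2 h3 h4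
  refine ⟨h4, h2, ?_⟩
  have hs0 : (0 : ℝ) < 3 + 2 * l := by linarith
  have e1 : Real.log (200 * B ^ 2 * (3 + 2 * l)) = Real.log (200 * B ^ 2) + Real.log (3 + 2 * l) :=
    Real.log_mul (by positivity) hs0.ne'
  have e2 : Real.log (48 * (B * (3 + 2 * l))) = Real.log (48 * B) + Real.log (3 + 2 * l) := by
    rw [← mul_assoc]
    exact Real.log_mul (by positivity) hs0.ne'
  rw [e1, e2]
  have e3 : 2 * (B * (3 + 2 * l)) / Real.exp l ≤ 1 := by
    rw [div_le_one (Real.exp_pos l)]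
    have : 0 ≤ B * (3 + 2 * l) := by positivity
    linarith
  have e4 : Real.log 2 ≤ 1 := by
    have := Real.log_two_lt_d9
    linarith
  have e5 := le_abs_self (Real.log (200 * B ^ 2))
  have e6 := le_abs_self (Real.log (48 * B))
  have e7 := abs_nonneg (Real.log (200 * B ^ 2))
  have e8 := abs_nonneg (Real.log (48 * B))
  set P := |Real.log (200 * B ^ 2)| with hP
  set Q := |Real.log (48 * B)| with hQ
  set s := 3 + 2 * l with hs'
  set ls := Real.log s with hls
  -- (B + 1) log s ≤ s / 100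
  have e9 : (B + 1) * ls ≤ s / 100 := by
    have h := mul_le_mul_of_nonneg_left h1 (show (0 : ℝ) ≤ B + 1 by linarith)
    have h' : (B + 1) * (1 / (100 * (B + 1)) * s) = s / 100 := by
      field_simp
    linarith
  have hls0 : 0 ≤ ls := Real.log_nonneg (by linarith)
  have e10 : 100 * (B + 1) * 10 ≤ 100 * (B + 1) * (10 + P + Q) := by
    have : 0 ≤ 100 * (B + 1) * (P + Q) := by positivity
    nlinarith
  have e11 : B * (1 + (Real.log (200 * B ^ 2) + ls)) ≤ B + B * P + B * ls := by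
    nlinarith
  have e12 : (B + 1) * (10 + P + Q) ≤ l / 100 := by linarith
  have e13 : B * P ≤ (B + 1) * P := by nlinarith
  nlinarith

/-- The numbers: for large `Λ` the two requirements hold. -/
theorem numbers (b : ℕ) : ∃ Λ₀ : ℝ, ∀ Λ : ℝ, Λ₀ ≤ Λ → ∀ (e e1 η : ℝ) (t t1 K K1 : ℕ),
    e = 1 / Λ → t = ⌈2 * Λ ^ 2⌉₊ + 1 → K = ((t + 1) ^ b + 1) ^ b →
    e1 = 1 / (96 * ((b : ℝ) ^ 2 + 1)) → t1 = ⌈2 * Real.log K / e1⌉₊ + 1 →
    K1 = ((t1 + 1) ^ b + 1) ^ b → η = e + Real.log K / (2 * Λ) →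
    0 < Λ ∧ 0 < η ∧ 32 * η ≤ 1 ∧
    Real.log 2 + 2 * e * Λ + (2 * e + 2 * e1) * Real.log K + Real.log K1 <
      (1 / 4) * Real.log (1 / (48 * η)) := by
  set B : ℝ := (b : ℝ) ^ 2 + 1 with hBdef
  have hB : 1 ≤ B := by
    have := sq_nonneg (b : ℝ)
    linarith
  have hev := (Real.tendsto_log_atTop.eventually (eventually_ineq B hB)).and
    (eventually_ge_atTop (1 : ℝ))
  obtain ⟨Λ₀, hΛ₀⟩ := eventually_atTop.1 hev
  refine ⟨Λ₀, ?_⟩
  intro Λ hΛ e e1 η t t1 K K1 he ht hK he1 ht1 hK1 hη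
  obtain ⟨⟨hl1, hexp, hineq⟩, hΛ1⟩ := hΛ₀ Λ hΛ
  have hΛpos : 0 < Λ := by linarith
  rw [Real.exp_log hΛpos] at hexp hineq
  set l := Real.log Λ with hl
  have hs0 : (0 : ℝ) < 3 + 2 * l := by linarith
  -- the bound for `log K`
  have hK1' : (1 : ℝ) ≤ K := by
    rw [hK]
    exact_mod_cast Nat.one_le_pow _ _ (Nat.succ_pos _)
  have hLK0 : 0 ≤ Real.log K := Real.log_nonneg hK1'
  have htr : (t : ℝ) + 1 ≤ 5 * Λ ^ 2 := by
    have h := Nat.ceil_lt_add_one (show (0 : ℝ) ≤ 2 * Λ ^ 2 by positivity)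
    rw [ht]
    push_cast
    nlinarith
  have hlt : Real.log ((t : ℝ) + 1) ≤ 2 + 2 * l := by
    have h0 : (0 : ℝ) < (t : ℝ) + 1 := by positivity
    have h1 := Real.log_le_log h0 htr
    rw [Real.log_mul (by norm_num) (by positivity), Real.log_pow] at h1
    have h5 : Real.log 5 ≤ 2 := by
      rw [Real.log_le_iff_le_exp (by norm_num)]
      have := Real.add_one_le_exp (1 : ℝ)
      have h2 : Real.exp 2 = Real.exp 1 * Real.exp 1 := by
        rw [← Real.exp_add]
        norm_num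
      have h3 := Real.exp_one_gt_d9
      rw [h2]
      nlinarith
    push_cast at h1
    linarith
  have hLK : Real.log K ≤ B * (3 + 2 * l) := by
    have h := log_K_le b t
    rw [← hK, ← hBdef] at h
    refine h.trans (mul_le_mul_of_nonneg_left ?_ (by linarith))
    linarith
  have he1pos : 0 < e1 := by
    rw [he1]
    positivity
  -- the bound for `log K1`
  have ht1r : (t1 : ℝ) + 1 ≤ 200 * B ^ 2 * (3 + 2 * l) := by
    have h := Nat.ceil_lt_add_one (show (0 : ℝ) ≤ 2 * Real.log K / e1 by positivity)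
    have h2 : 2 * Real.log K / e1 = 192 * B * Real.log K := by
      rw [he1]
      field_simp
      ring
    rw [h2] at h
    have h3 : (t1 : ℝ) + 1 < 192 * B * Real.log K + 3 := by
      rw [ht1, h2]
      push_cast
      linarith
    have h4 : 192 * B * Real.log K ≤ 192 * B * (B * (3 + 2 * l)) :=
      mul_le_mul_of_nonneg_left hLK (by positivity)
    have h5 : (3 : ℝ) ≤ 8 * B ^ 2 * (3 + 2 * l) := by
      have : (1 : ℝ) ≤ B ^ 2 := one_le_pow₀ hB
      nlinarith
    nlinarith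
  have hLK1 : Real.log K1 ≤ B * (1 + Real.log (200 * B ^ 2 * (3 + 2 * l))) := by
    have h := log_K_le b t1
    rw [← hK1, ← hBdef] at h
    refine h.trans (mul_le_mul_of_nonneg_left ?_ (by linarith))
    have h0 : (0 : ℝ) < (t1 : ℝ) + 1 := by positivity
    have := Real.log_le_log h0 ht1r
    linarith
  -- the bound for `η`
  have hηpos : 0 < η := by
    rw [hη, he]
    positivity
  have hη2 : η ≤ B * (3 + 2 * l) / Λ := by
    rw [hη, he, div_add_div _ _ hΛpos.ne' (by positivity), div_le_div_iff₀ (by positivity) hΛpos]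
    have h1 : 2 ≤ B * (3 + 2 * l) := by nlinarith
    have h3 : (1 * (2 * Λ) + Λ * Real.log K) * Λ = Λ ^ 2 * (2 + Real.log K) := by ring
    have h4 : B * (3 + 2 * l) * (Λ * (2 * Λ)) = Λ ^ 2 * (B * (3 + 2 * l) + B * (3 + 2 * l)) := by
      ring
    rw [h3, h4]
    exact mul_le_mul_of_nonneg_left (by linarith) (by positivity)
  refine ⟨hΛpos, hηpos, ?_, ?_⟩
  · calc 32 * η ≤ 32 * (B * (3 + 2 * l) / Λ) := by linarith
      _ = 32 * (B * (3 + 2 * l)) / Λ := by ring
      _ ≤ 1 := by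
        rw [div_le_one hΛpos]
        exact hexp
  · have hr1 : l - Real.log (48 * (B * (3 + 2 * l))) ≤ Real.log (1 / (48 * η)) := by
      rw [hl, ← Real.log_div hΛpos.ne' (by positivity)]
      refine Real.log_le_log (by positivity) ?_
      rw [div_le_div_iff₀ (by positivity) (by positivity)]
      have h := mul_le_mul_of_nonneg_left hη2 (show (0 : ℝ) ≤ 48 * Λ by positivity)
      have h2 : 48 * Λ * (B * (3 + 2 * l) / Λ) = 48 * (B * (3 + 2 * l)) := by
        field_simp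
      rw [h2] at h
      linarith
    have hr2 : 2 * e * Λ = 2 := by
      rw [he]
      field_simp
    have hr3 : 2 * e * Real.log K ≤ 2 * (B * (3 + 2 * l)) / Λ := by
      rw [he]
      have h : 2 * (1 / Λ) * Real.log K = 2 * Real.log K / Λ := by ring
      rw [h]
      gcongr
    have hr4 : 2 * e1 * Real.log K ≤ (3 + 2 * l) / 48 := by
      have h : 2 * e1 * Real.log K ≤ 2 * e1 * (B * (3 + 2 * l)) :=
        mul_le_mul_of_nonneg_left hLK (by positivity)
      have h2 : 2 * e1 * (B * (3 + 2 * l)) = (3 + 2 * l) / 48 := by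
        rw [he1]
        field_simp
        ring
      linarith
    have hr5 : (2 * e + 2 * e1) * Real.log K = 2 * e * Real.log K + 2 * e1 * Real.log K := by ring
    rw [hr2, hr5]
    linarith

end Pool.Agent.H40.VC.Numbers
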